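import Pool.Agent.Q226.ADDM.Defs
import Pool.Agent.Q226.ADDM.Main

set_option autoImplicit false

/-!
# The approximate double description method is correct in every dimension

All definitions are in `Pool/Agent/Q226/ADDM/Defs.lean`. A run is modelled by the relation `Reach`;
`Correct A ε hm` says that for the input `(A, ε)` the start and every step can always be carried out
(whatever has been chosen before) and that every possible output `c(V)` satisfies
`P ⊆ conv c(V) ⊆ (1 + ε) P`.

The proof. The following is an invariant of the method: there is a cycle modulo two of dimension
`d - 1` on the set of the row indices treated so far, each of whose simplices is contained in the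
index set `I(v)` of some node `v`, such that a generic direction `h` lies in the cones spanned by the
rows of an odd number of the simplices. In a step the simplices which belong to deleted nodes are
replaced by the cone, with apex `i`, over their boundary; the nodes needed for the new simplices exist
since nodes with `d - 1` common indices are adjacent, and the parity does not change since the rows of
a deleted simplex and the new row lie in an open half space. If a point `x` of `P` were not in
`conv c(V)` then for a separating direction `h` none of the cones could contain `h`.
-/

namespace Pool.Agent.Results.MP_d4db3843_lc.AllDimensions

open Pool.Agent.Q226.ADDM

/-- ADDM is correct in dimension `d`: for all inputs every run is correct. -/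
def CorrectInDimension (d : ℕ) : Prop :=
  ∀ (m : ℕ) (hm : d + 1 ≤ m) (A : Matrix (Fin m) (Fin d) ℝ) (ε : ℝ), 0 ≤ ε →
    Bornology.IsBounded (poly A 0) → IsSimplex (firstRows A) → Correct A ε hm

/-- **The approximate double description method is correct in every dimension `d ≥ 2`.** -/
theorem result : ∀ d : ℕ, 2 ≤ d → CorrectInDimension d :=
  fun _ _ _ hm A ε hε _ hS => correct A ε hε hm hS

end Pool.Agent.Results.MP_d4db3843_lc.AllDimensions
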